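import Pool.Agent.Helper98.DISC.GoalsD

set_option autoImplicit false

/-! # FUB: Fubini for the coordinate `j` and the coordinates below and above `j` -/

open MeasureTheory Set Filter Topology
open scoped ENNReal

noncomputable section

namespace Pool.Agent.Helper38.DISC

open Pool.Agent.Helper98.DISC

theorem mp_split (ι : Type) [Fintype ι] [LinearOrder ι] (j : ι) :
    MeasurePreserving (fun z : ι → ℂ =>
      (z j, ((fun i : {i // i < j} => z i), (fun i : {i // j < i} => z i)))) volume volume := by
  let f : (Unit ⊕ ({i // i < j} ⊕ {i // j < i})) ≃ ι :=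
    Equiv.ofBijective (Sum.elim (fun _ => j) (Sum.elim Subtype.val Subtype.val)) (by
      constructor
      · rintro (a | a | a) (b | b | b) h
        · rfl
        · exact absurd b.2 (by simp only [Sum.elim_inl, Sum.elim_inr] at h; rw [← h]; exact lt_irrefl _)
        · exact absurd b.2 (by simp only [Sum.elim_inl, Sum.elim_inr] at h; rw [← h]; exact lt_irrefl _)
        · exact absurd a.2 (by simp only [Sum.elim_inl, Sum.elim_inr] at h; rw [h]; exact lt_irrefl _)
        · simp only [Sum.elim_inl, Sum.elim_inr] at h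
          rw [Subtype.ext h]
        · have h1 := a.2
          have h2 := b.2
          simp only [Sum.elim_inl, Sum.elim_inr] at h
          rw [h] at h1
          exact absurd (h1.trans h2) (lt_irrefl _)
        · exact absurd a.2 (by simp only [Sum.elim_inl, Sum.elim_inr] at h; rw [h]; exact lt_irrefl _)
        · have h1 := a.2
          have h2 := b.2
          simp only [Sum.elim_inl, Sum.elim_inr] at h
          rw [h] at h1
          exact absurd (h1.trans h2) (lt_irrefl _)
        · simp only [Sum.elim_inr] at h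
          rw [Subtype.ext h]
      · intro i
        rcases lt_trichotomy i j with h | h | h
        · exact ⟨.inr (.inl ⟨i, h⟩), rfl⟩
        · exact ⟨.inl (), h.symm⟩
        · exact ⟨.inr (.inr ⟨i, h⟩), rfl⟩)
  have h1 := (volume_measurePreserving_piCongrLeft (fun _ : ι => ℂ) f).symm
  have h2 := volume_measurePreserving_sumPiEquivProdPi
    (fun _ : Unit ⊕ ({i // i < j} ⊕ {i // j < i}) => ℂ)
  have h3 := volume_preserving_funUnique Unit ℂ
  have h4 := volume_measurePreserving_sumPiEquivProdPi
    (fun _ : ({i // i < j} ⊕ {i // j < i}) => ℂ)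
  exact (h3.prod h4).comp (h2.comp h1)

theorem fub : S_FUB := by
  intro ι _ _ j G L Q hG hL hQ
  have hW : MeasurableSet {p : ℂ × (({i // i < j} → ℂ) × ({i // j < i} → ℂ)) |
      p.1 ∈ G ∧ (p.1, p.2.1) ∈ L ∧ (p.1, p.2.2) ∈ Q} := by
    have e1 : Measurable fun p : ℂ × (({i // i < j} → ℂ) × ({i // j < i} → ℂ)) => p.1 := by
      fun_prop
    have e2 : Measurable fun p : ℂ × (({i // i < j} → ℂ) × ({i // j < i} → ℂ)) =>
      (p.1, p.2.1) := by fun_prop
    have e3 : Measurable fun p : ℂ × (({i // i < j} → ℂ) × ({i // j < i} → ℂ)) =>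
      (p.1, p.2.2) := by fun_prop
    exact (e1 hG).inter ((e2 hL).inter (e3 hQ))
  have h1 := (mp_split ι j).measure_preimage hW.nullMeasurableSet
  have h2 : volume {z : ι → ℂ | z j ∈ G ∧ (z j, fun i : {i // i < j} => z i) ∈ L ∧
      (z j, fun i : {i // j < i} => z i) ∈ Q} =
      volume {p : ℂ × (({i // i < j} → ℂ) × ({i // j < i} → ℂ)) |
      p.1 ∈ G ∧ (p.1, p.2.1) ∈ L ∧ (p.1, p.2.2) ∈ Q} := h1
  rw [h2, Measure.volume_eq_prod, Measure.prod_apply hW, ← lintegral_indicator hG]
  refine lintegral_congr fun w => ?_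
  by_cases hw : w ∈ G
  · rw [Set.indicator_of_mem hw, ← Measure.prod_prod]
    rw [← Measure.volume_eq_prod]
    congr 1
    ext p
    simp [hw]
  · rw [Set.indicator_of_notMem hw]
    have : Prod.mk w ⁻¹' {p : ℂ × (({i // i < j} → ℂ) × ({i // j < i} → ℂ)) |
      p.1 ∈ G ∧ (p.1, p.2.1) ∈ L ∧ (p.1, p.2.2) ∈ Q} = ∅ := by
      ext p
      simp [hw]
    rw [this, measure_empty]

end Pool.Agent.Helper38.DISC
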