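import Pool.Agent.Helper98.DISC.GoalsC

set_option autoImplicit false

/-! # PGA: a strictly convex counterclockwise polygon is convex -/

open MeasureTheory Set Filter Topology

noncomputable section

namespace Pool.Agent.Helper38.DISC

open Pool.Agent.Helper98.DISC

theorem cr_aff (a b z w : ℂ) (s t : ℝ) (h : s + t = 1) :
    cr a b (s • z + t • w) = s * cr a b z + t * cr a b w := by
  simp only [cr, Complex.add_re, Complex.add_im, Complex.real_smul, Complex.mul_re,
    Complex.mul_im, Complex.ofReal_re, Complex.ofReal_im]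
  linear_combination (-(b.re - a.re) * a.im + (b.im - a.im) * a.re) * (-h)

theorem cr_left (a b : ℂ) : cr a b a = 0 := by simp [cr]

theorem cr_right (a b : ℂ) : cr a b b = 0 := by simp only [cr]; ring

theorem cr_rot (a b c : ℂ) : cr a b c = cr c a b := by simp only [cr]; ring

theorem cr_cont (a b : ℂ) : Continuous fun z => cr a b z := by
  unfold cr
  fun_prop

section
variable {n : ℕ} [NeZero n]

theorem succ_val_of_lt (i : Fin n) (h : (i : ℕ) + 1 < n) : ((i + 1 : Fin n) : ℕ) = i + 1 := by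
  rw [Fin.val_add]
  have h1 : ((1 : Fin n) : ℕ) = 1 % n := rfl
  rw [h1]
  simp only [Nat.add_mod_mod]
  exact Nat.mod_eq_of_lt h

theorem succ_eq_zero (i : Fin n) (h : (i : ℕ) + 1 = n) : (i + 1 : Fin n) = 0 := by
  apply Fin.ext
  rw [Fin.val_add]
  have h1 : ((1 : Fin n) : ℕ) = 1 % n := rfl
  rw [h1]
  simp only [Nat.add_mod_mod, h]
  simp

theorem succ_ne (hn : 3 ≤ n) (i : Fin n) : i + 1 ≠ i := by
  intro h
  rcases Nat.lt_or_ge ((i : ℕ) + 1) n with h1 | h1
  · have h2 := succ_val_of_lt i h1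
    rw [h] at h2
    omega
  · have h3 : (i : ℕ) + 1 = n := by have := i.isLt; omega
    have h2 := succ_eq_zero i h3
    rw [h] at h2
    rw [h2] at h3
    simp at h3
    omega

theorem succ_succ_ne (hn : 3 ≤ n) (i : Fin n) : i + 1 + 1 ≠ i := by
  intro h
  rcases Nat.lt_or_ge ((i : ℕ) + 1) n with h1 | h1
  · have h2 := succ_val_of_lt i h1
    rcases Nat.lt_or_ge ((i + 1 : Fin n) + 1 : ℕ) n with h4 | h4
    · have h5 := succ_val_of_lt (i + 1) h4
      rw [h] at h5
      omega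
    · have h6 : ((i + 1 : Fin n) : ℕ) + 1 = n := by have := (i + 1).isLt; omega
      have h7 := succ_eq_zero (i + 1) h6
      rw [h] at h7
      rw [h7] at h2
      simp only [Fin.val_zero, zero_add] at h2
      rw [h7, zero_add] at h6
      omega
  · have h3 : (i : ℕ) + 1 = n := by have := i.isLt; omega
    have h2 := succ_eq_zero i h3
    rw [h2, zero_add] at h
    have h5 : ((0 : Fin n) + 1 : Fin n).val = ((0 : Fin n) : ℕ) + 1 :=
      succ_val_of_lt 0 (by simp only [Fin.val_zero]; omega)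
    rw [zero_add, h] at h5
    simp only [Fin.val_zero, zero_add] at h5
    omega

theorem pos_edge (hn : 3 ≤ n) {x : Fin n → ℂ} (hx : Pos3 x) (i m : Fin n) (h1 : m ≠ i)
    (h2 : m ≠ i + 1) : 0 < cr (x i) (x (i + 1)) (x m) := by
  rcases Nat.lt_or_ge ((i : ℕ) + 1) n with h | h
  · have h3 := succ_val_of_lt i h
    rcases lt_or_gt_of_ne h1 with h4 | h4
    · rw [cr_rot]
      refine hx m i (i + 1) h4 ?_
      rw [Fin.lt_def]
      omega
    · have h5 : (m : ℕ) ≠ (i : ℕ) + 1 := fun h6 => h2 (Fin.ext (by rw [h3, h6]))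
      rw [Fin.lt_def] at h4
      refine hx i (i + 1) m ?_ ?_
      · rw [Fin.lt_def]; omega
      · rw [Fin.lt_def]; omega
  · have h3 : (i : ℕ) + 1 = n := by have := i.isLt; omega
    have h4 := succ_eq_zero i h3
    rw [h4] at h2 ⊢
    rw [← cr_rot]
    refine hx 0 m i ?_ ?_
    · exact Fin.pos_iff_ne_zero.2 h2
    · have h5 : (m : ℕ) ≠ (i : ℕ) := fun h6 => h1 (Fin.ext h6)
      have := m.isLt
      rw [Fin.lt_def]
      omega

theorem nonneg_edge (hn : 3 ≤ n) {x : Fin n → ℂ} (hx : Pos3 x) (i m : Fin n) :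
    0 ≤ cr (x i) (x (i + 1)) (x m) := by
  by_cases h1 : m = i
  · rw [h1, cr_left]
  · by_cases h2 : m = i + 1
    · rw [h2, cr_right]
    · exact (pos_edge hn hx i m h1 h2).le

theorem edge_zero {x : Fin n → ℂ} (i : Fin n) {z : ℂ} (hz : z ∈ edge x i) :
    cr (x i) (x (i + 1)) z = 0 := by
  obtain ⟨s, t, _, _, hst, rfl⟩ := hz
  rw [cr_aff _ _ _ _ _ _ hst, cr_left, cr_right]
  ring

theorem edge_nonneg (hn : 3 ≤ n) {x : Fin n → ℂ} (hx : Pos3 x) (i j : Fin n) {z : ℂ}
    (hz : z ∈ edge x i) : 0 ≤ cr (x j) (x (j + 1)) z := by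
  obtain ⟨s, t, hs, ht, hst, rfl⟩ := hz
  rw [cr_aff _ _ _ _ _ _ hst]
  have h1 := nonneg_edge hn hx j i
  have h2 := nonneg_edge hn hx j (i + 1)
  positivity

/-- a point of the line through two points -/
theorem line_pt {a b c z : ℂ} (hc : cr a b c ≠ 0) (hz : cr a b z = 0) :
    ∃ t : ℝ, z = (1 - t) • a + t • b := by
  have hab : a.re ≠ b.re ∨ a.im ≠ b.im := by
    by_contra h
    push Not at h
    apply hc
    simp only [cr, h.1, h.2]
    ring
  simp only [cr] at hz
  rcases hab with h | h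
  · have h' : b.re - a.re ≠ 0 := sub_ne_zero.2 (Ne.symm h)
    refine ⟨(z.re - a.re) / (b.re - a.re), ?_⟩
    apply Complex.ext
    · simp only [Complex.add_re, Complex.real_smul, Complex.mul_re, Complex.ofReal_re,
        Complex.ofReal_im]
      field_simp
      ring
    · simp only [Complex.add_im, Complex.real_smul, Complex.mul_im, Complex.ofReal_re,
        Complex.ofReal_im]
      field_simp
      linear_combination hz
  · have h' : b.im - a.im ≠ 0 := sub_ne_zero.2 (Ne.symm h)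
    refine ⟨(z.im - a.im) / (b.im - a.im), ?_⟩
    apply Complex.ext
    · simp only [Complex.add_re, Complex.real_smul, Complex.mul_re, Complex.ofReal_re,
        Complex.ofReal_im]
      field_simp
      linear_combination -hz
    · simp only [Complex.add_im, Complex.real_smul, Complex.mul_im, Complex.ofReal_re,
        Complex.ofReal_im]
      field_simp
      ring

theorem mem_edge_of (hn : 3 ≤ n) {x : Fin n → ℂ} (hx : Pos3 x) (i : Fin n) {z : ℂ}
    (hC : ∀ j, 0 ≤ cr (x j) (x (j + 1)) z) (hz : cr (x i) (x (i + 1)) z = 0) :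
    z ∈ edge x i := by
  have h1 : 0 < cr (x i) (x (i + 1)) (x (i + 1 + 1)) :=
    pos_edge hn hx i (i + 1 + 1) (succ_succ_ne hn i) (succ_ne hn (i + 1))
  obtain ⟨t, rfl⟩ := line_pt h1.ne' hz
  have h2 := hC (i + 1)
  rw [cr_aff _ _ _ _ _ _ (by ring), cr_left, mul_zero, add_zero] at h2
  have h3 : 0 < cr (x (i + 1)) (x (i + 1 + 1)) (x i) :=
    pos_edge hn hx (i + 1) i (succ_ne hn i).symm (succ_succ_ne hn i).symm
  have ht1 : t ≤ 1 := by
    by_contra h
    push Not at h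
    have : (1 - t) * cr (x (i + 1)) (x (i + 1 + 1)) (x i) < 0 :=
      mul_neg_of_neg_of_pos (by linarith) h3
    linarith
  have h4 := hC (i - 1)
  have e : i - 1 + 1 = i := sub_add_cancel i 1
  rw [cr_aff _ _ _ _ _ _ (by ring)] at h4
  have h5 : cr (x (i - 1)) (x (i - 1 + 1)) (x i) = 0 := by rw [e, cr_right]
  rw [h5, mul_zero, zero_add] at h4
  have h6 : 0 < cr (x (i - 1)) (x (i - 1 + 1)) (x (i + 1)) := by
    refine pos_edge hn hx (i - 1) (i + 1) ?_ ?_
    · intro h7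
      have h8 := succ_succ_ne hn (i - 1)
      rw [e] at h8
      exact h8 h7
    · rw [e]
      exact succ_ne hn i
  have ht0 : 0 ≤ t := by
    by_contra h
    push Not at h
    have : t * cr (x (i - 1)) (x (i - 1 + 1)) (x (i + 1)) < 0 :=
      mul_neg_of_neg_of_pos h h6
    linarith
  exact ⟨1 - t, t, by linarith, ht0, by ring, rfl⟩

theorem simple_of_pos3 (hn : 3 ≤ n) {x : Fin n → ℂ} (hx : Pos3 x) : IsSimple x := by
  constructor
  · intro i
    apply Set.Subset.antisymm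
    · rintro z ⟨hz1, hz2⟩
      have h1 := edge_zero (i + 1) hz2
      obtain ⟨s, t, _, _, hst, rfl⟩ := hz1
      rw [cr_aff _ _ _ _ _ _ hst, cr_left, mul_zero, add_zero] at h1
      have h3 : 0 < cr (x (i + 1)) (x (i + 1 + 1)) (x i) :=
        pos_edge hn hx (i + 1) i (succ_ne hn i).symm (succ_succ_ne hn i).symm
      have hs : s = 0 := (mul_eq_zero.1 h1).resolve_right h3.ne'
      have ht : t = 1 := by linarith
      simp [hs, ht]
    · rintro z rfl
      exact ⟨right_mem_segment ℝ _ _, left_mem_segment ℝ _ _⟩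
  · intro i j h1 h2 h3
    rw [Set.disjoint_left]
    intro z hz1 hz2
    have h4 := edge_zero i hz1
    obtain ⟨s, t, hs, ht, hst, rfl⟩ := hz2
    rw [cr_aff _ _ _ _ _ _ hst] at h4
    have h5 := pos_edge hn hx i j (Ne.symm h1) h2
    have h6 := pos_edge hn hx i (j + 1) (Ne.symm h3) (fun h => h1 (add_right_cancel h).symm)
    rcases hs.eq_or_lt with h7 | h7
    · have ht1 : t = 1 := by linarith
      rw [← h7, ht1] at h4
      linarith
    · have h8 : 0 < s * cr (x i) (x (i + 1)) (x j) := mul_pos h7 h5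
      have h9 : 0 ≤ t * cr (x i) (x (i + 1)) (x (j + 1)) := mul_nonneg ht h6.le
      linarith

theorem sum_cr (x : Fin n → ℂ) (z : ℂ) :
    ∑ i, cr (x i) (x (i + 1)) z =
      ∑ i, ((x i).re * (x (i + 1)).im - (x i).im * (x (i + 1)).re) := by
  have h1 : ∀ f : Fin n → ℝ, ∑ i, f (i + 1) = ∑ i, f i := fun f =>
    Equiv.sum_comp (Equiv.addRight (1 : Fin n)) f
  have h2 : ∀ i, cr (x i) (x (i + 1)) z = (((x (i + 1)).re * z.im - (x i).re * z.im) -
      ((x (i + 1)).im * z.re - (x i).im * z.re)) +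
      ((x i).re * (x (i + 1)).im - (x i).im * (x (i + 1)).re) := by
    intro i
    simp only [cr]
    ring
  rw [Finset.sum_congr rfl fun i _ => h2 i, Finset.sum_add_distrib, Finset.sum_sub_distrib,
    Finset.sum_sub_distrib, Finset.sum_sub_distrib,
    h1 fun i => (x i).re * z.im, h1 fun i => (x i).im * z.re]
  ring

theorem bdd_aux {x : Fin n → ℂ} (i : Fin n) (h : 0 < cr (x i) (x (i + 1)) (x (i + 1 + 1)))
    (z : ℂ) : (cr (x i) (x (i + 1)) (x (i + 1 + 1))) • (z - x (i + 1)) =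
      (-(cr (x (i + 1)) (x (i + 1 + 1)) z)) • (x (i + 1) - x i) +
        (cr (x i) (x (i + 1)) z) • (x (i + 1 + 1) - x (i + 1)) := by
  apply Complex.ext
  · simp only [Complex.add_re, Complex.real_smul, Complex.mul_re, Complex.ofReal_re,
        Complex.ofReal_im, Complex.sub_re, cr]
    ring
  · simp only [Complex.add_im, Complex.real_smul, Complex.mul_im, Complex.ofReal_re,
        Complex.ofReal_im, Complex.sub_im, cr]
    ring

theorem bounded_of (hn : 3 ≤ n) {x : Fin n → ℂ} (hx : Pos3 x) :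
    Bornology.IsBounded {z : ℂ | ∀ i, 0 < cr (x i) (x (i + 1)) z} := by
  obtain ⟨T, hT⟩ : ∃ T : ℝ, ∀ z, ∑ i, cr (x i) (x (i + 1)) z = T := ⟨_, sum_cr x⟩
  have h1 : 0 < cr (x 0) (x (0 + 1)) (x (0 + 1 + 1)) :=
    pos_edge hn hx 0 (0 + 1 + 1) (succ_succ_ne hn 0) (succ_ne hn (0 + 1))
  rw [isBounded_iff_forall_norm_le]
  refine ⟨T * (‖x (0 + 1) - x 0‖ + ‖x (0 + 1 + 1) - x (0 + 1)‖) /
    cr (x 0) (x (0 + 1)) (x (0 + 1 + 1)) + ‖x (0 + 1)‖, ?_⟩
  intro z hz
  have hle : ∀ i, cr (x i) (x (i + 1)) z ≤ T := by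
    intro i
    rw [← hT z]
    exact Finset.single_le_sum (f := fun i => cr (x i) (x (i + 1)) z)
      (fun j _ => (hz j).le) (Finset.mem_univ i)
  have h2 := congrArg norm (bdd_aux 0 h1 z)
  rw [norm_smul, Real.norm_eq_abs, abs_of_pos h1] at h2
  have h3 := norm_add_le ((-(cr (x (0 + 1)) (x (0 + 1 + 1)) z)) • (x (0 + 1) - x 0))
    ((cr (x 0) (x (0 + 1)) z) • (x (0 + 1 + 1) - x (0 + 1)))
  rw [norm_smul, norm_smul, norm_neg, Real.norm_eq_abs, Real.norm_eq_abs,
    abs_of_pos (hz (0 + 1)), abs_of_pos (hz 0)] at h3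
  have h4 : cr (x (0 + 1)) (x (0 + 1 + 1)) z * ‖x (0 + 1) - x 0‖ ≤ T * ‖x (0 + 1) - x 0‖ :=
    mul_le_mul_of_nonneg_right (hle (0 + 1)) (norm_nonneg _)
  have h5 : cr (x 0) (x (0 + 1)) z * ‖x (0 + 1 + 1) - x (0 + 1)‖ ≤
      T * ‖x (0 + 1 + 1) - x (0 + 1)‖ :=
    mul_le_mul_of_nonneg_right (hle 0) (norm_nonneg _)
  have h6 : ‖z - x (0 + 1)‖ ≤ T * (‖x (0 + 1) - x 0‖ + ‖x (0 + 1 + 1) - x (0 + 1)‖) /
      cr (x 0) (x (0 + 1)) (x (0 + 1 + 1)) := by
    rw [le_div_iff₀ h1]
    linarith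
  have h7 := norm_sub_norm_le z (x (0 + 1))
  linarith

theorem frontier_eq (hn : 3 ≤ n) {x : Fin n → ℂ} (hx : Pos3 x) {c : ℂ}
    (hc : ∀ i, 0 < cr (x i) (x (i + 1)) c)
    (hopen : IsOpen {z : ℂ | ∀ i, 0 < cr (x i) (x (i + 1)) z}) :
    frontier {z : ℂ | ∀ i, 0 < cr (x i) (x (i + 1)) z} = ⋃ i, edge x i := by
  have hcl : closure {z : ℂ | ∀ i, 0 < cr (x i) (x (i + 1)) z} =
      {z : ℂ | ∀ i, 0 ≤ cr (x i) (x (i + 1)) z} := by
    apply Set.Subset.antisymm
    · refine closure_minimal (fun z hz i => (hz i).le) ?_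
      have : {z : ℂ | ∀ i, 0 ≤ cr (x i) (x (i + 1)) z} =
          ⋂ i, {z : ℂ | 0 ≤ cr (x i) (x (i + 1)) z} := by
        ext z; simp
      rw [this]
      exact isClosed_iInter fun i => isClosed_le continuous_const (cr_cont _ _)
    · intro z hz
      have h1 : Tendsto (fun t : ℝ => (1 - t) • z + t • c) (𝓝[>] 0) (𝓝 z) := by
        have h2 : Continuous fun t : ℝ => (1 - t) • z + t • c := by fun_prop
        have h3 := h2.tendsto 0
        simp only [sub_zero, one_smul, zero_smul, add_zero] at h3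
        exact h3.mono_left nhdsWithin_le_nhds
      refine mem_closure_of_tendsto h1 ?_
      have h4 : ∀ᶠ t : ℝ in 𝓝[>] 0, t ∈ Ioo (0 : ℝ) 1 := Ioo_mem_nhdsGT one_pos
      filter_upwards [h4] with t ht i
      rw [cr_aff _ _ _ _ _ _ (by ring)]
      have h5 : 0 ≤ (1 - t) * cr (x i) (x (i + 1)) z :=
        mul_nonneg (by linarith [ht.2]) (hz i)
      have h6 : 0 < t * cr (x i) (x (i + 1)) c := mul_pos ht.1 (hc i)
      linarith
  rw [frontier, hcl, hopen.interior_eq]
  ext z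
  simp only [Set.mem_sdiff, Set.mem_ofPred_eq, Set.mem_iUnion]
  constructor
  · rintro ⟨h1, h2⟩
    push Not at h2
    obtain ⟨i, hi⟩ := h2
    exact ⟨i, mem_edge_of hn hx i h1 (le_antisymm hi (h1 i))⟩
  · rintro ⟨i, hi⟩
    refine ⟨fun j => edge_nonneg hn hx i j hi, fun h => ?_⟩
    have h1 := edge_zero i hi
    have h2 := h i
    linarith

end

theorem exists_center {n : ℕ} [NeZero n] (hn : 3 ≤ n) {x : Fin n → ℂ} (hx : Pos3 x) :
    ∃ c : ℂ, ∀ i, 0 < cr (x i) (x (i + 1)) c := by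
  refine ⟨(1 / 3 : ℝ) • x 0 + (2 / 3 : ℝ) • ((1 / 2 : ℝ) • x (0 + 1) +
    (1 / 2 : ℝ) • x (0 + 1 + 1)), fun i => ?_⟩
  rw [cr_aff _ _ _ _ _ _ (by norm_num), cr_aff _ _ _ _ _ _ (by norm_num)]
  have h0 := nonneg_edge hn hx i 0
  have h1 := nonneg_edge hn hx i (0 + 1)
  have h2 := nonneg_edge hn hx i (0 + 1 + 1)
  have n1 : (0 + 1 : Fin n) ≠ 0 := succ_ne hn 0
  have n2 : (0 + 1 + 1 : Fin n) ≠ 0 := succ_succ_ne hn 0
  have n3 : (0 + 1 + 1 : Fin n) ≠ 0 + 1 := succ_ne hn (0 + 1)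
  have key : 0 < cr (x i) (x (i + 1)) (x 0) ∨ 0 < cr (x i) (x (i + 1)) (x (0 + 1)) ∨
      0 < cr (x i) (x (i + 1)) (x (0 + 1 + 1)) := by
    by_cases a1 : (0 : Fin n) = i
    · right
      right
      refine pos_edge hn hx i _ ?_ ?_
      · rw [← a1]; exact n2
      · rw [← a1]; exact n3
    · by_cases a2 : (0 : Fin n) = i + 1
      · right
        by_cases a3 : (0 + 1 : Fin n) = i
        · right
          refine pos_edge hn hx i _ ?_ ?_
          · rw [← a3]; exact n3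
          · rw [← a2]; exact n2
        · left
          refine pos_edge hn hx i _ a3 ?_
          rw [← a2]; exact n1
      · left
        exact pos_edge hn hx i 0 a1 a2
  rcases key with h | h | h <;> linarith

theorem pga : S_PGA := by
  intro n _ x hn hx
  obtain ⟨c, hc⟩ := exists_center hn hx
  have hopen : IsOpen {z : ℂ | ∀ i, 0 < cr (x i) (x (i + 1)) z} := by
    have : {z : ℂ | ∀ i, 0 < cr (x i) (x (i + 1)) z} =
        ⋂ i, {z : ℂ | 0 < cr (x i) (x (i + 1)) z} := by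
      ext z; simp
    rw [this]
    exact isOpen_iInter_of_finite fun i => isOpen_lt continuous_const (cr_cont _ _)
  refine ⟨simple_of_pos3 hn hx, {z : ℂ | ∀ i, 0 < cr (x i) (x (i + 1)) z}, hopen, ⟨c, hc⟩,
    bounded_of hn hx, ?_, frontier_eq hn hx hc hopen⟩
  · intro z hz w hw s t hs ht hst i
    rw [cr_aff _ _ _ _ _ _ hst]
    rcases hs.eq_or_lt with h7 | h7
    · have ht1 : t = 1 := by linarith
      rw [← h7, ht1]
      have := hw i
      linarith
    · have h8 := mul_pos h7 (hz i)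
      have h9 := mul_nonneg ht (hw i).le
      linarith

end Pool.Agent.Helper38.DISC
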